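import Pool.Agent.H80.G2.Targets

/-!
# MP_323167_an: row DNS

The unit ball of a von Neumann algebra on a separable Hilbert space is separable in the 2-norm.
-/

set_option autoImplicit false

open Pool.Agent.H80.G2
open scoped InnerProductSpace Topology
open Filter

namespace Pool.Agent.H60.G2

theorem lp_separable {H : Type} [NormedAddCommGroup H] [InnerProductSpace ℂ H]
    [TopologicalSpace.SeparableSpace H] :
    TopologicalSpace.IsSeparable (Set.univ : Set (lp (fun _ : ℕ => H) 2)) := by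
  have h1 : TopologicalSpace.IsSeparable
      (⋃ i : ℕ, Set.range (lp.singleContinuousLinearMap ℂ (fun _ : ℕ => H) 2 i)) :=
    TopologicalSpace.IsSeparable.iUnion fun i =>
      TopologicalSpace.isSeparable_range (lp.singleContinuousLinearMap ℂ (fun _ : ℕ => H) 2 i).continuous
  have h2 := (h1.span (R := ℂ)).closure
  refine h2.mono ?_
  intro f _
  have h3 := lp.hasSum_single (p := 2) (by norm_num) f
  refine mem_closure_of_tendsto h3 (Eventually.of_forall fun s => ?_)
  refine Submodule.sum_mem _ fun i _ => Submodule.subset_span ?_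
  refine Set.mem_iUnion.2 ⟨i, ⟨f i, ?_⟩⟩
  rfl

theorem pf_DNS : T_DNS := by
  intro H _ _ _ _ N ξ hN
  have h1 : TopologicalSpace.IsSeparable (emb hN.sum '' {y | y ∈ N ∧ ‖y‖ ≤ 1}) :=
    (lp_separable (H := H)).mono (Set.subset_univ _)
  obtain ⟨t, ht1, ht2, ht3⟩ := h1.exists_countable_dense_subset
  have hne : t.Nonempty := by
    by_contra hc
    rw [Set.not_nonempty_iff_eq_empty] at hc
    rw [hc, closure_empty] at ht3
    exact ht3 ⟨0, ⟨zero_mem N, by simp⟩, rfl⟩
  obtain ⟨f, hf⟩ := ht2.exists_eq_range hne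
  have h2 : ∀ n, ∃ y, (y ∈ N ∧ ‖y‖ ≤ 1) ∧ emb hN.sum y = f n := by
    intro n
    have : f n ∈ t := by rw [hf]; exact ⟨n, rfl⟩
    exact ht1 this
  choose x hx hxf using h2
  refine ⟨x, hx, fun y hy hy1 ε hε => ?_⟩
  have h3 := ht3 ⟨y, ⟨hy, hy1⟩, rfl⟩
  obtain ⟨b, hb, hb2⟩ := Metric.mem_closure_iff.1 h3 ε hε
  rw [hf] at hb
  obtain ⟨n, rfl⟩ := hb
  refine ⟨n, ?_⟩
  rw [← hxf n, dist_eq_norm, ← map_sub, norm_emb] at hb2
  exact hb2

end Pool.Agent.H60.G2
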