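import Pool.Agent.H80.G2.Targets

/-!
# MP_323167_an: row FCP

The fixed points of an outer involution of a factor are a factor.
-/

set_option autoImplicit false

open Pool.Agent.H80.G2
open scoped InnerProductSpace Topology
open Filter

namespace Pool.Agent.H60.G2

section

variable {H : Type} [NormedAddCommGroup H] [InnerProductSpace ℂ H] [CompleteSpace H]
  {N : VonNeumannAlgebra H} {ξ : ℕ → H} {θ : (H →L[ℂ] H) → (H →L[ℂ] H)}

theorem inv_neg (h : Inv N ξ θ) {x : H →L[ℂ] H} (hx : x ∈ N) : θ (-x) = -θ x := by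
  have := h.smul (-1) x hx
  rwa [neg_one_smul, neg_one_smul] at this

theorem inv_sub (h : Inv N ξ θ) {x y : H →L[ℂ] H} (hx : x ∈ N) (hy : y ∈ N) :
    θ (x - y) = θ x - θ y := by
  rw [sub_eq_add_neg, h.add x hx (-y) (neg_mem hy), inv_neg h hy, ← sub_eq_add_neg]

theorem inv_one (h : Inv N ξ θ) : θ 1 = 1 := by
  have h1 : θ (θ 1) = 1 := h.inv 1 (one_mem N)
  have h2 := h.mul 1 (one_mem N) (θ 1) (h.mem 1 (one_mem N))
  rw [one_mul, h1, mul_one] at h2
  exact h2.symm

/-- decomposition into eigenvectors -/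
theorem inv_dec (h : Inv N ξ θ) {x : H →L[ℂ] H} (hx : x ∈ N) :
    ∃ p a : H →L[ℂ] H, p ∈ N ∧ θ p = p ∧ a ∈ N ∧ θ a = -a ∧ x = p + a := by
  have h1 : x + θ x ∈ N := add_mem hx (h.mem x hx)
  have h2 : x - θ x ∈ N := sub_mem hx (h.mem x hx)
  refine ⟨(1 / 2 : ℂ) • (x + θ x), (1 / 2 : ℂ) • (x - θ x), smul_mem' N _ h1, ?_,
    smul_mem' N _ h2, ?_, by module⟩
  · rw [h.smul _ _ h1, h.add x hx _ (h.mem x hx), h.inv x hx, add_comm]
  · rw [h.smul _ _ h2, inv_sub h hx (h.mem x hx), h.inv x hx]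
    module

end

theorem pf_FCP (hFCT : T_FCT) (hZPR : T_ZPR) : T_FCP := by
  intro H _ _ _ N ξ θ hfac hθ P hP
  by_contra hnf
  obtain ⟨e, he, hc, he0, he1⟩ := hZPR H P hnf
  have heN : e ∈ N ∧ θ e = e := (hP e).1 he.1
  -- corners
  have key : ∀ f g : H →L[ℂ] H, f ∈ N → g ∈ N → θ f = f → f * f = f → g * f = 0 → g ≠ 0 →
      (∀ p ∈ P, g * p = p * g) → ∀ b ∈ N, θ b = -b → f * b * f = 0 := by
    intro f g hf hg hθf hff hgf hg0 hgc b hb hθb
    have hfbf : f * b * f ∈ N := mul_mem (mul_mem hf hb) hf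
    have h1 : ∀ n ∈ N, g * n * (f * b * f) = 0 := by
      intro n hn
      obtain ⟨p, a, hp, hθp, ha, hθa, rfl⟩ := inv_dec hθ hn
      have h2 : g * p * (f * b * f) = 0 := by
        rw [hgc p ((hP p).2 ⟨hp, hθp⟩)]
        have : p * g * (f * b * f) = p * (g * f) * (b * f) := by simp only [mul_assoc]
        rw [this, hgf, mul_zero, zero_mul]
      have h3 : a * (f * b * f) ∈ P := by
        rw [hP]
        refine ⟨mul_mem ha hfbf, ?_⟩
        rw [hθ.mul a ha _ hfbf, hθ.mul _ (mul_mem hf hb) _ hf, hθ.mul _ hf _ hb, hθf, hθa, hθb]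
        simp
      have h4 : g * a * (f * b * f) = 0 := by
        have e1 : g * a * (f * b * f) = (g * (a * (f * b * f))) * f := by
          simp only [mul_assoc, hff]
        rw [e1, hgc _ h3, mul_assoc, hgf, mul_zero]
      rw [mul_add, add_mul, h2, h4, add_zero]
    rcases hFCT H N hfac g hg (f * b * f) h1 with h | h
    · exact absurd h hg0
    · exact h
  have h1e : (1 - e : H →L[ℂ] H) ∈ N := sub_mem (one_mem N) heN.1
  have hθ1e : θ (1 - e) = 1 - e := by
    rw [inv_sub hθ (one_mem N) heN.1, inv_one hθ, heN.2]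
  have hee := he.2.2
  have k1 := key e (1 - e) heN.1 h1e heN.2 hee (by rw [sub_mul, one_mul, hee, sub_self])
    (fun h => he1 (sub_eq_zero.1 h).symm)
    (fun p hp => by rw [sub_mul, mul_sub, one_mul, mul_one, hc p hp])
  have k2 := key (1 - e) e h1e heN.1 hθ1e
    (by rw [mul_sub, mul_one, sub_mul, one_mul, hee, sub_self, sub_zero])
    (by rw [mul_sub, mul_one, hee, sub_self]) he0 hc
  set v : H →L[ℂ] H := 2 * e - 1 with hv
  have hvN : v ∈ N := by
    have : v = e + e - 1 := by rw [hv, two_mul]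
    rw [this]
    exact sub_mem (add_mem heN.1 heN.1) (one_mem N)
  have hve : v = e + e - 1 := by rw [hv, two_mul]
  have hvs : star v = v := by
    rw [hve, star_sub, star_add, he.2.1, star_one]
  have hvv : v * v = 1 := by
    rw [hve]
    simp only [mul_sub, mul_add, sub_mul, add_mul, mul_one, one_mul, hee]
    abel
  have hvU : Uni N v := ⟨hvN, by rw [hvs, hvv], by rw [hvs, hvv]⟩
  obtain ⟨x, hx, hne⟩ := hθ.out v hvU
  apply hne
  obtain ⟨p, a, hp, hθp, ha, hθa, rfl⟩ := inv_dec hθ hx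
  rw [hθ.add p hp a ha, hθp, hθa, hvs]
  have hvp : v * p * v = p := by
    have : v * p = p * v := by
      rw [hve]
      simp only [mul_sub, mul_add, sub_mul, add_mul, mul_one, one_mul,
        hc p ((hP p).2 ⟨hp, hθp⟩)]
    rw [this, mul_assoc, hvv, mul_one]
  have hva : v * a * v = -a := by
    have e1 := k1 a ha hθa
    have e2 := k2 a ha hθa
    rw [hve]
    simp only [mul_sub, mul_add, sub_mul, add_mul, mul_one, one_mul] at e2 ⊢
    rw [e1] at e2 ⊢
    have e3 : a = a * e + e * a := by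
      have : a - e * a - (a * e - 0) = 0 := e2
      rw [sub_zero, sub_sub, sub_eq_zero] at this
      rw [add_comm]
      exact this
    have : (0:H →L[ℂ] H) + 0 - a * e + (0 + 0 - a * e) - (e * a + e * a - a) = a - (a * e + e * a) - (a * e + e * a) := by abel
    rw [this, ← e3]
    abel
  rw [mul_add, add_mul, hvp, hva]

end Pool.Agent.H60.G2
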