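import Pool.Agent.H80.G2.Targets
import Pool.Agent.H60.G2.FCP

/-!
# MP_323167_an: row FIX

The fixed points of an involution are a von Neumann algebra.
-/

set_option autoImplicit false

open Pool.Agent.H80.G2
open scoped InnerProductSpace Topology
open Filter

namespace Pool.Agent.H60.G2

section amp

variable {H : Type} [NormedAddCommGroup H] [InnerProductSpace ℂ H] [CompleteSpace H]

theorem amp_memlp (x : H →L[ℂ] H) (f : lp (fun _ : ℕ => H) 2) :
    Memℓp (fun n => x ((f : ∀ _ : ℕ, H) n)) 2 := by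
  refine memℓp_gen ?_
  have h1 : (2 : ENNReal).toReal = ((2 : ℕ) : ℝ) := by norm_num
  have h2 := (lp.memℓp f).summable (by norm_num)
  rw [h1] at h2 ⊢
  refine Summable.of_nonneg_of_le (fun n => by positivity) (fun n => ?_) (h2.mul_left (‖x‖ ^ 2))
  rw [Real.rpow_natCast, Real.rpow_natCast, ← mul_pow]
  exact pow_le_pow_left₀ (norm_nonneg _) (x.le_opNorm _) 2

/-- the operator `1 ⊗ x` on `l^2(H)` -/
noncomputable def amp (x : H →L[ℂ] H) :
    lp (fun _ : ℕ => H) 2 →L[ℂ] lp (fun _ : ℕ => H) 2 :=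
  LinearMap.mkContinuous
    { toFun := fun f => (⟨fun n => x ((f : ∀ _ : ℕ, H) n), amp_memlp x f⟩ :
        lp (fun _ : ℕ => H) 2)
      map_add' := fun f g => by
        ext n
        exact map_add x _ _
      map_smul' := fun c f => by
        ext n
        exact map_smul x _ _ } ‖x‖ (by
    intro f
    refine lp.norm_le_of_forall_sum_le (by norm_num) (by positivity) ?_
    intro s
    have h1 : (2 : ENNReal).toReal = ((2 : ℕ) : ℝ) := by norm_num
    have h2 := lp.sum_rpow_le_norm_rpow (p := 2) (by norm_num) f s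
    rw [h1] at h2 ⊢
    simp only [Real.rpow_natCast] at h2 ⊢
    rw [mul_pow]
    calc ∑ i ∈ s, ‖x ((f : ∀ _ : ℕ, H) i)‖ ^ 2
        ≤ ∑ i ∈ s, ‖x‖ ^ 2 * ‖(f : ∀ _ : ℕ, H) i‖ ^ 2 := by
          refine Finset.sum_le_sum fun i _ => ?_
          rw [← mul_pow]
          exact pow_le_pow_left₀ (norm_nonneg _) (x.le_opNorm _) 2
      _ = ‖x‖ ^ 2 * ∑ i ∈ s, ‖(f : ∀ _ : ℕ, H) i‖ ^ 2 := by rw [Finset.mul_sum]
      _ ≤ ‖x‖ ^ 2 * ‖f‖ ^ 2 := mul_le_mul_of_nonneg_left h2 (by positivity))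

theorem amp_apply (x : H →L[ℂ] H) (f : lp (fun _ : ℕ => H) 2) (n : ℕ) :
    (amp x f : ∀ _ : ℕ, H) n = x ((f : ∀ _ : ℕ, H) n) := rfl

theorem amp_emb {ξ : ℕ → H} (h : Summable fun n => ‖ξ n‖ ^ 2) (x y : H →L[ℂ] H) :
    amp x (emb h y) = emb h (x * y) := rfl

theorem amp_inner (x : H →L[ℂ] H) (f g : lp (fun _ : ℕ => H) 2) :
    ⟪f, amp x g⟫_ℂ = ⟪amp (star x) f, g⟫_ℂ := by
  rw [lp.inner_eq_tsum, lp.inner_eq_tsum]
  congr 1
  funext n
  rw [amp_apply, amp_apply, ContinuousLinearMap.star_eq_adjoint,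
    ContinuousLinearMap.adjoint_inner_left]

/-- a vector in the closure of `emb '' P` -/
theorem amp_mem {ξ : ℕ → H} (h : Summable fun n => ‖ξ n‖ ^ 2) (S : StarSubalgebra ℂ (H →L[ℂ] H))
    (x : H →L[ℂ] H) (hx : ∀ y : H →L[ℂ] H, (∀ p ∈ S, p * y = y * p) → x * y = y * x)
    (ε : ℝ) (hε : 0 < ε) : ∃ p ∈ S, n2 ξ (x - p) < ε := by
  let V : Submodule ℂ (lp (fun _ : ℕ => H) 2) := (S.toSubalgebra.toSubmodule).map (emb h)
  have hV : ∀ f, f ∈ V ↔ ∃ p ∈ S, emb h p = f := fun f => Iff.rfl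
  let Q : Submodule ℂ (lp (fun _ : ℕ => H) 2) := V.topologicalClosure
  have hQc : IsClosed (Q : Set (lp (fun _ : ℕ => H) 2)) := V.isClosed_topologicalClosure
  haveI : CompleteSpace Q := hQc.completeSpace_coe
  have hinv : ∀ p ∈ S, ∀ f ∈ Q, amp p f ∈ Q := by
    intro p hp f hf
    have h1 : Set.MapsTo (amp p) (V : Set (lp (fun _ : ℕ => H) 2)) V := by
      intro g hg
      obtain ⟨p', hp', rfl⟩ := (hV g).1 hg
      exact (hV _).2 ⟨p * p', mul_mem hp hp', (amp_emb h p p').symm⟩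
    exact h1.closure (amp p).continuous hf
  have hcom : ∀ p ∈ S, ∀ f, Q.starProjection (amp p f) = amp p (Q.starProjection f) := by
    intro p hp f
    refine Submodule.eq_starProjection_of_mem_of_inner_eq_zero ?_ ?_
    · exact hinv p hp _ (Submodule.starProjection_apply_mem _ _)
    · intro w hw
      rw [← map_sub]
      have h1 : ⟪amp p (f - Q.starProjection f), w⟫_ℂ =
          ⟪f - Q.starProjection f, amp (star p) w⟫_ℂ := by
        have := amp_inner (star p) (f - Q.starProjection f) w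
        rw [star_star] at this
        exact this.symm
      rw [h1]
      exact Submodule.starProjection_inner_eq_zero f _ (hinv (star p) (star_mem hp) w hw)
  let s : ℕ → (H →L[ℂ] lp (fun _ : ℕ => H) 2) := fun j =>
    lp.singleContinuousLinearMap ℂ (fun _ : ℕ => H) 2 j
  let t : ℕ → (lp (fun _ : ℕ => H) 2 →L[ℂ] H) := fun i => lp.evalCLM ℂ (fun _ : ℕ => H) 2 i
  have hs : ∀ (y : H →L[ℂ] H) (j : ℕ) (η : H), amp y (s j η) = s j (y η) := by
    intro y j η
    ext n
    rw [amp_apply]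
    change y ((lp.single 2 j η : lp (fun _ : ℕ => H) 2) n) = (lp.single 2 j (y η) : lp (fun _ : ℕ => H) 2) n
    rw [lp.single_apply, lp.single_apply]
    by_cases hn : n = j
    · subst hn
      simp
    · simp [Pi.single_eq_of_ne hn]
  have ht : ∀ (y : H →L[ℂ] H) (i : ℕ) (f : lp (fun _ : ℕ => H) 2), t i (amp y f) = y (t i f) :=
    fun y i f => rfl
  have hq : ∀ i j, x * ((t i).comp (Q.starProjection.comp (s j))) =
      ((t i).comp (Q.starProjection.comp (s j))) * x := by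
    intro i j
    refine hx _ fun p hp => ?_
    ext η
    change p (t i (Q.starProjection (s j η))) = t i (Q.starProjection (s j (p η)))
    rw [← hs, hcom p hp, ht]
  have hqx : Q.starProjection.comp (amp x) = (amp x).comp Q.starProjection := by
    refine lp.ext_continuousLinearMap (p := 2) (by norm_num) fun j => ?_
    ext η i
    have h1 := DFunLike.congr_fun (hq i j) η
    change x (t i (Q.starProjection (s j η))) = t i (Q.starProjection (s j (x η))) at h1
    change t i (Q.starProjection (amp x (s j η))) = t i (amp x (Q.starProjection (s j η)))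
    rw [hs, ht]
    exact h1.symm
  have h1Q : emb h 1 ∈ Q := V.le_topologicalClosure ((hV _).2 ⟨1, one_mem S, rfl⟩)
  have hxQ : emb h x ∈ Q := by
    have h1 : amp x (emb h 1) = emb h x := by rw [amp_emb, mul_one]
    have h2 := DFunLike.congr_fun hqx (emb h 1)
    rw [ContinuousLinearMap.comp_apply, ContinuousLinearMap.comp_apply, h1,
      Submodule.starProjection_eq_self_iff.2 h1Q, h1] at h2
    exact Submodule.starProjection_eq_self_iff.1 h2
  obtain ⟨b, hb, hb2⟩ := Metric.mem_closure_iff.1 (show emb h x ∈ closure (V : Set _) from hxQ) ε hε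
  obtain ⟨p, hp, rfl⟩ := (hV b).1 hb
  refine ⟨p, hp, ?_⟩
  rwa [dist_eq_norm, ← map_sub, norm_emb] at hb2

end amp

theorem pf_FIX : T_FIX := by
  intro H _ _ _ N ξ θ hN hθ
  let S : StarSubalgebra ℂ (H →L[ℂ] H) :=
    { carrier := {x | x ∈ N ∧ θ x = x}
      mul_mem' := fun {a b} ha hb => ⟨mul_mem ha.1 hb.1, by
        rw [hθ.mul a ha.1 b hb.1, ha.2, hb.2]⟩
      one_mem' := ⟨one_mem N, inv_one hθ⟩
      add_mem' := fun {a b} ha hb => ⟨add_mem ha.1 hb.1, by
        rw [hθ.add a ha.1 b hb.1, ha.2, hb.2]⟩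
      zero_mem' := ⟨zero_mem N, by
        have := hθ.smul 0 0 (zero_mem N)
        rwa [zero_smul, zero_smul] at this⟩
      algebraMap_mem' := fun c => by
        rw [Algebra.algebraMap_eq_smul_one]
        exact ⟨smul_mem' N c (one_mem N), by rw [hθ.smul c 1 (one_mem N), inv_one hθ]⟩
      star_mem' := fun {a} ha => ⟨star_mem ha.1, by rw [hθ.star a ha.1, ha.2]⟩ }
  have hS : ∀ x, x ∈ S ↔ x ∈ N ∧ θ x = x := fun x => Iff.rfl
  refine ⟨⟨S, ?_⟩, fun x => Iff.rfl⟩
  refine Set.Subset.antisymm ?_ Set.subset_centralizer_centralizer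
  intro x hx
  have hx' : ∀ y : H →L[ℂ] H, (∀ p ∈ S, p * y = y * p) → x * y = y * x := by
    intro y hy
    exact (Set.mem_centralizer_iff.1 hx y (Set.mem_centralizer_iff.2 hy)).symm
  have hxN : x ∈ N := mem_of_comm fun y hy => hx' y fun p hp => hy p hp.1
  refine ⟨hxN, ?_⟩
  have hθx := hθ.mem x hxN
  have h0 : n2 ξ (x - θ x) = 0 := by
    refine le_antisymm (le_of_forall_pos_le_add fun ε hε => ?_) (n2_nonneg _ _)
    obtain ⟨p, hp, hp2⟩ := amp_mem hN.sum S x hx' (ε / 2) (by linarith)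
    have h1 := n2_sub_le hN.sum x p (θ x)
    have h2 : p - θ x = θ (p - x) := by rw [inv_sub hθ hp.1 hxN, hp.2]
    rw [h2, hθ.n2 _ (sub_mem hp.1 hxN), n2_sub_comm ξ p x] at h1
    linarith
  exact (sub_eq_zero.1 (eq_zero_of_n2 hN (sub_mem hxN hθx) h0)).symm

end Pool.Agent.H60.G2
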