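import Pool.Agent.H80.G2.Targets

/-!
# MP_323167_an: row SPG

Greedy averages.
-/

set_option autoImplicit false

open Pool.Agent.H80.G2
open scoped InnerProductSpace Topology
open Filter

namespace Pool.Agent.H60.G2

section

variable {H : Type} [NormedAddCommGroup H] [InnerProductSpace ℂ H] [CompleteSpace H]

theorem mc_conj {O O' : Set (H →L[ℂ] H)} (x y : H →L[ℂ] H) (h : ∀ z ∈ O, x * z * y ∈ O')
    {T : H →L[ℂ] H} (hT : Mc O T) : Mc O' (x * T * y) := by
  induction hT with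
  | base z hz => exact Mc.base _ (h z hz)
  | mid a b _ _ h1 h2 =>
    have : x * ((1 / 2 : ℂ) • (a + b)) * y = (1 / 2 : ℂ) • (x * a * y + x * b * y) := by
      rw [mul_smul_comm, smul_mul_assoc, mul_add, add_mul]
    rw [this]
    exact Mc.mid _ _ h1 h2

open Classical in
/-- products of at most `k` elements of `F` -/
noncomputable def Wk (F : Finset (H →L[ℂ] H)) : ℕ → Finset (H →L[ℂ] H)
  | 0 => {1}
  | k + 1 => Wk F k ∪ Finset.image₂ (fun x w => x * w) F (Wk F k)

theorem mem_wk_succ {F : Finset (H →L[ℂ] H)} {k : ℕ} {w : H →L[ℂ] H} :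
    w ∈ Wk F (k + 1) ↔ w ∈ Wk F k ∨ ∃ x ∈ F, ∃ w' ∈ Wk F k, x * w' = w := by
  classical
  rw [Wk, Finset.mem_union, Finset.mem_image₂]

theorem wk_uni {N : VonNeumannAlgebra H} {F : Finset (H →L[ℂ] H)} (hF : ∀ x ∈ F, Uni N x) :
    ∀ k, ∀ w ∈ Wk F k, Uni N w := by
  intro k
  induction k with
  | zero =>
    intro w hw
    rw [Wk, Finset.mem_singleton] at hw
    rw [hw]
    exact uni_one N
  | succ k ih =>
    intro w hw
    rw [mem_wk_succ] at hw
    rcases hw with hw | ⟨x, hx, w', hw', rfl⟩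
    · exact ih w hw
    · exact (hF x hx).mul (ih w' hw')

end

theorem pf_SPG : T_SPG := by
  intro H _ _ _ N ξ hN F hF δ hδ
  have claim : ∀ k : ℕ, ∀ V ∈ N, ‖V‖ ≤ 1 → ∃ T, Mc {z | ∃ w ∈ Wk F k, z = w * V * star w} T ∧
      ((∀ x ∈ F, n2 ξ (x * T - T * x) < δ) ∨ n2 ξ T ^ 2 ≤ 1 - k * (δ ^ 2 / 4)) := by
    intro k
    induction k with
    | zero =>
      intro V hV hV1
      refine ⟨V, Mc.base _ ⟨1, by rw [Wk]; exact Finset.mem_singleton_self _, by
        rw [star_one, one_mul, mul_one]⟩, Or.inr ?_⟩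
      have := n2_le_norm hN.one V
      have h0 := n2_nonneg ξ V
      push_cast
      nlinarith
    | succ k ih =>
      intro V hV hV1
      obtain ⟨T, hT, hc⟩ := ih V hV hV1
      have hsub : {z | ∃ w ∈ Wk F k, z = w * V * star w} ⊆
          {z | ∃ w ∈ Wk F (k + 1), z = w * V * star w} := by
        rintro z ⟨w, hw, rfl⟩
        exact ⟨w, mem_wk_succ.2 (Or.inl hw), rfl⟩
      have hT' := hT.mono hsub
      by_cases hg : ∀ x ∈ F, n2 ξ (x * T - T * x) < δ
      · exact ⟨T, hT', Or.inl hg⟩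
      · rcases hc with hc | hc
        · exact absurd hc hg
        push Not at hg
        obtain ⟨x, hx, hxd⟩ := hg
        have hTN : T ∈ N := hT.mem (by
          rintro z ⟨w, hw, rfl⟩
          have := wk_uni hF k w hw
          exact mul_mem (mul_mem this.1 hV) this.star.1)
        refine ⟨(1 / 2 : ℂ) • (T + x * T * star x), Mc.mid _ _ hT' ?_, Or.inr ?_⟩
        · refine mc_conj x (star x) ?_ hT
          rintro z ⟨w, hw, rfl⟩
          refine ⟨x * w, ?_, ?_⟩
          · exact mem_wk_succ.2 (Or.inr ⟨x, hx, w, hw, rfl⟩)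
          · rw [star_mul]
            simp only [mul_assoc]
        · have h1 := n2_par hN.sum T (x * T * star x)
          rw [n2_conj hN (hF x hx) hTN, n2_sub_comm ξ T, n2_comm_uni hN (hF x hx) hTN] at h1
          rw [n2_smul hN.sum]
          have h2 : ‖(1 / 2 : ℂ)‖ = 1 / 2 := by norm_num
          rw [h2, mul_pow]
          have h3 : δ ^ 2 ≤ n2 ξ (x * T - T * x) ^ 2 := pow_le_pow_left₀ hδ.le hxd 2
          push_cast
          nlinarith
  obtain ⟨k, hk⟩ := exists_nat_gt (1 / (δ ^ 2 / 4))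
  have hδ4 : 0 < δ ^ 2 / 4 := by positivity
  refine ⟨Wk F k, wk_uni hF k, fun V hV hV1 => ?_⟩
  obtain ⟨T, hT, hc⟩ := claim k V hV hV1
  refine ⟨T, hT, ?_⟩
  rcases hc with hc | hc
  · exact hc
  · exfalso
    rw [div_lt_iff₀ hδ4] at hk
    have := sq_nonneg (n2 ξ T)
    linarith

end Pool.Agent.H60.G2
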