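import Pool.Agent.H80.G2.Targets

/-!
# MP_323167_an: row TRC

Comparison of the traces of two close algebras.
-/

set_option autoImplicit false

open Pool.Agent.H80.G2
open scoped InnerProductSpace Topology
open Filter

namespace Pool.Agent.H60.G2

theorem pf_TRC (hAVG : T_AVG) (hSTR : T_STR) : T_TRC := by
  intro H _ _ _ M N ξ ζ hM hfac hN ε hε hNr x hx y hy
  have claim : ∀ T, Mc (Orb M x) T → ∃ Y ∈ N, ‖T - Y‖ ≤ ‖x - y‖ + ε * ‖x‖ + ε * ‖y‖ ∧
      ‖tr ζ Y - tr ζ y‖ ≤ 2 * ε * ‖y‖ := by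
    intro T hT
    induction hT with
    | base z hz =>
      obtain ⟨u, hu, rfl⟩ := hz
      obtain ⟨v, hv, hv1, huv⟩ := hNr u hu.1 (norm_of_uni hu)
      have hsu : ‖star u‖ ≤ 1 := norm_of_uni hu.star
      have hsv : ‖star v‖ ≤ 1 := by rw [norm_star]; exact hv1
      have hsuv : ‖star u - star v‖ ≤ ε := by rw [← star_sub, norm_star]; exact huv
      refine ⟨v * y * star v, mul_mem (mul_mem hv hy) (star_mem hv), ?_, ?_⟩
      · have e1 : u * x * star u - v * y * star v =
            (u - v) * x * star u + v * (x - y) * star u + v * y * (star u - star v) := by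
          noncomm_ring
        rw [e1]
        have n1 : ‖(u - v) * x * star u‖ ≤ ε * ‖x‖ := by
          calc ‖(u - v) * x * star u‖ ≤ ‖u - v‖ * ‖x‖ * ‖star u‖ :=
                (norm_mul_le _ _).trans (mul_le_mul_of_nonneg_right (norm_mul_le _ _)
                  (norm_nonneg _))
            _ ≤ ‖u - v‖ * ‖x‖ * 1 := mul_le_mul_of_nonneg_left hsu (by positivity)
            _ ≤ ε * ‖x‖ := by rw [mul_one]; exact mul_le_mul_of_nonneg_right huv (norm_nonneg _)
        have n2 : ‖v * (x - y) * star u‖ ≤ ‖x - y‖ := by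
          calc ‖v * (x - y) * star u‖ ≤ ‖v‖ * ‖x - y‖ * ‖star u‖ :=
                (norm_mul_le _ _).trans (mul_le_mul_of_nonneg_right (norm_mul_le _ _)
                  (norm_nonneg _))
            _ ≤ ‖v‖ * ‖x - y‖ * 1 := mul_le_mul_of_nonneg_left hsu (by positivity)
            _ ≤ 1 * ‖x - y‖ := by rw [mul_one]; exact mul_le_mul_of_nonneg_right hv1 (norm_nonneg _)
            _ = ‖x - y‖ := one_mul _
        have n3 : ‖v * y * (star u - star v)‖ ≤ ε * ‖y‖ := by
          calc ‖v * y * (star u - star v)‖ ≤ ‖v‖ * ‖y‖ * ‖star u - star v‖ :=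
                (norm_mul_le _ _).trans (mul_le_mul_of_nonneg_right (norm_mul_le _ _)
                  (norm_nonneg _))
            _ ≤ ‖v‖ * ‖y‖ * ε := mul_le_mul_of_nonneg_left hsuv (by positivity)
            _ ≤ 1 * ‖y‖ * ε := mul_le_mul_of_nonneg_right
                  (mul_le_mul_of_nonneg_right hv1 (norm_nonneg _)) hε
            _ = ε * ‖y‖ := by ring
        have t := norm_add₃_le (a := (u - v) * x * star u) (b := v * (x - y) * star u)
          (c := v * y * (star u - star v))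
        linarith
      · have e2 : tr ζ (v * y * star v) - tr ζ y = tr ζ (y * (star v * v - 1)) := by
          rw [mul_sub, mul_one, tr_sub hN.sum, mul_assoc v y,
            hN.comm v hv _ (mul_mem hy (star_mem hv)), mul_assoc y]
        rw [e2]
        refine (norm_tr_le' hN.one _).trans ((norm_mul_le _ _).trans ?_)
        have e3 : star v * v - 1 = star v * (v - u) + (star v - star u) * u := by
          rw [← hu.2.1]
          noncomm_ring
        have n4 : ‖star v * v - 1‖ ≤ 2 * ε := by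
          rw [e3]
          refine (norm_add_le _ _).trans ?_
          have a1 : ‖star v * (v - u)‖ ≤ ε := by
            refine (norm_mul_le _ _).trans ?_
            rw [norm_sub_rev v u]
            nlinarith [norm_nonneg (u - v), norm_nonneg (star v)]
          have a2 : ‖(star v - star u) * u‖ ≤ ε := by
            refine (norm_mul_le _ _).trans ?_
            rw [norm_sub_rev (star v)]
            nlinarith [norm_nonneg (star u - star v), norm_nonneg u, norm_of_uni hu]
          linarith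
        nlinarith [norm_nonneg y]
    | mid a b _ _ h1 h2 =>
      obtain ⟨Y1, hY1, b1, c1⟩ := h1
      obtain ⟨Y2, hY2, b2, c2⟩ := h2
      have hh : ‖(1 / 2 : ℂ)‖ = 1 / 2 := by norm_num
      refine ⟨(1 / 2 : ℂ) • (Y1 + Y2), smul_mem' N _ (add_mem hY1 hY2), ?_, ?_⟩
      · have e1 : (1 / 2 : ℂ) • (a + b) - (1 / 2 : ℂ) • (Y1 + Y2) =
            (1 / 2 : ℂ) • ((a - Y1) + (b - Y2)) := by module
        rw [e1, norm_smul, hh]
        have := norm_add_le (a - Y1) (b - Y2)
        linarith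
      · have e1 : tr ζ ((1 / 2 : ℂ) • (Y1 + Y2)) - tr ζ y =
            (1 / 2 : ℂ) * ((tr ζ Y1 - tr ζ y) + (tr ζ Y2 - tr ζ y)) := by
          rw [tr_smul, tr_add hN.sum]
          ring
        rw [e1, norm_mul, hh]
        have := norm_add_le (tr ζ Y1 - tr ζ y) (tr ζ Y2 - tr ζ y)
        linarith
  obtain ⟨T, hT, hlim⟩ := hAVG H M ξ hM hfac x hx
  have hTM : ∀ k, T k ∈ M := fun k => (hT k).mem (by
    rintro z ⟨u, hu, rfl⟩
    exact mul_mem (mul_mem hu.1 hx) hu.star.1)
  have hTn : ∀ k, ‖T k‖ ≤ ‖x‖ := by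
    intro k
    have := Mc.norm_le (V := 0) (r := ‖x‖) (O := Orb M x) (by
      rintro z ⟨u, hu, rfl⟩
      rw [sub_zero]
      exact norm_conj_le hu x) (hT k)
    rwa [sub_zero] at this
  have hstr := hSTR H M ξ hM T ‖x‖ (tr ξ x • (1 : H →L[ℂ] H)) hTM hTn
    (smul_mem' M _ (one_mem M)) hlim
  have hlim2 : Tendsto (fun k => tr ζ (T k)) atTop (𝓝 (tr ζ (tr ξ x • (1 : H →L[ℂ] H)))) := by
    unfold tr
    refine tendsto_tsum_of_dominated_convergence (bound := fun n => ‖x‖ * ‖ζ n‖ ^ 2)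
      (hN.sum.mul_left _) ?_ ?_
    · intro n
      exact Tendsto.inner tendsto_const_nhds (hstr (ζ n))
    · refine Eventually.of_forall fun k n => ?_
      refine (norm_inner_le_norm _ _).trans ?_
      have h1 := (T k).le_opNorm (ζ n)
      have h2 := hTn k
      have h3 := norm_nonneg (ζ n)
      have h4 : ‖T k (ζ n)‖ ≤ ‖x‖ * ‖ζ n‖ := h1.trans (mul_le_mul_of_nonneg_right h2 h3)
      nlinarith
  rw [tr_smul, tr_one' hN.one, mul_one] at hlim2
  have hlim3 : Tendsto (fun k => ‖tr ζ (T k) - tr ξ x‖ + (‖x - y‖ + ε * ‖x‖ + 3 * ε * ‖y‖)) atTop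
      (𝓝 (0 + (‖x - y‖ + ε * ‖x‖ + 3 * ε * ‖y‖))) := by
    refine Tendsto.add ?_ tendsto_const_nhds
    exact tendsto_iff_norm_sub_tendsto_zero.1 hlim2
  rw [zero_add] at hlim3
  refine ge_of_tendsto' hlim3 fun k => ?_
  obtain ⟨Y, hY, b1, c1⟩ := claim (T k) (hT k)
  have d1 : ‖tr ζ Y - tr ζ (T k)‖ ≤ ‖x - y‖ + ε * ‖x‖ + ε * ‖y‖ := by
    rw [← tr_sub hN.sum, ← norm_neg, ← tr_neg, neg_sub]
    exact (norm_tr_le' hN.one _).trans b1
  have d2 : tr ζ y - tr ξ x = -(tr ζ Y - tr ζ y) + (tr ζ Y - tr ζ (T k)) +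
      (tr ζ (T k) - tr ξ x) := by ring
  rw [d2]
  have t := norm_add₃_le (a := -(tr ζ Y - tr ζ y)) (b := tr ζ Y - tr ζ (T k))
    (c := tr ζ (T k) - tr ξ x)
  rw [norm_neg] at t
  linarith

end Pool.Agent.H60.G2
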