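import Pool.Agent.H80.G2.Targets
import Pool.Agent.H60.G2.FCP

/-!
# MP_323167_an: row UNM

A unitary element in the `-1`-eigenspace.
-/

set_option autoImplicit false

open Pool.Agent.H80.G2
open scoped InnerProductSpace Topology
open Filter

namespace Pool.Agent.H60.G2

theorem pf_UNM (hFCT : T_FCT) (hPIS : T_PIS) (hEXH : T_EXH) : T_UNM := by
  intro H _ _ _ N ξ θ hN hθ P hP hPf
  obtain ⟨v, hv, hθv, hpr, hmax⟩ := hEXH H N ξ θ hN hθ
  have hsv : star v ∈ N := star_mem hv
  have hθsv : θ (star v) = -star v := by rw [hθ.star v hv, hθv, star_neg]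
  have h1N : (1 : H →L[ℂ] H) ∈ N := one_mem N
  have hθ1 : θ 1 = 1 := inv_one hθ
  -- `v (v* v) = v`
  have hpp : star v * v * (star v * v) = star v * v := hpr.2.2
  have hvp : v * (star v * v) = v := by
    have h0 : star (v - v * (star v * v)) * (v - v * (star v * v)) = 0 := by
      rw [star_sub, star_mul, hpr.2.1, sub_mul, mul_sub, mul_sub]
      have e1 : star v * (v * (star v * v)) = star v * v := by rw [← mul_assoc]; exact hpp
      have e2 : star v * v * star v * v = star v * v := by rw [mul_assoc (star v * v)]; exact hpp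
      have e3 : star v * v * star v * (v * (star v * v)) = star v * v := by
        rw [← mul_assoc, mul_assoc (star v * v), hpp, hpp]
      rw [e1, e2, e3]
      simp
    have h1 := (CStarRing.star_mul_self_eq_zero_iff _).1 h0
    exact (sub_eq_zero.1 h1).symm
  have hvv : v * star v * (v * star v) = v * star v := by
    have : v * star v * (v * star v) = v * (star v * v) * star v := by simp only [mul_assoc]
    rw [this, hvp]
  have hvsN : v * star v ∈ N := mul_mem hv hsv
  have hsvvN : star v * v ∈ N := mul_mem hsv hv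
  set e : H →L[ℂ] H := 1 - star v * v with he
  set f : H →L[ℂ] H := 1 - v * star v with hf
  have heN : e ∈ N := sub_mem h1N hsvvN
  have hfN : f ∈ N := sub_mem h1N hvsN
  have hθe : θ e = e := by
    rw [he, inv_sub hθ h1N hsvvN, hθ1, hθ.mul _ hsv _ hv, hθv, hθsv, neg_mul_neg]
  have hθf : θ f = f := by
    rw [hf, inv_sub hθ h1N hvsN, hθ1, hθ.mul _ hv _ hsv, hθv, hθsv, neg_mul_neg]
  have heP : e ∈ P := (hP e).2 ⟨heN, hθe⟩
  have hfP : f ∈ P := (hP f).2 ⟨hfN, hθf⟩
  have hse : star e = e := by rw [he, star_sub, star_one, hpr.2.1]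
  have hsf : star f = f := by rw [hf, star_sub, star_one, star_mul, star_star]
  have hee : e * e = e := by
    rw [he, sub_mul, one_mul, mul_sub, mul_one, hpp, sub_self, sub_zero]
  have hff : f * f = f := by
    rw [hf, sub_mul, one_mul, mul_sub, mul_one, hvv, sub_self, sub_zero]
  have hev : e * (star v * v) = 0 := by
    rw [he, sub_mul, one_mul, hpp, sub_self]
  have hvf : v * star v * f = 0 := by
    rw [hf, mul_sub, mul_one, hvv, sub_self]
  -- the corner
  have hcor : ∀ a ∈ N, θ a = -a → f * a * e = 0 := by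
    intro a ha hθa
    by_contra hy
    have hyN : f * a * e ∈ N := mul_mem (mul_mem hfN ha) heN
    have hθy : θ (f * a * e) = -(f * a * e) := by
      rw [hθ.mul _ (mul_mem hfN ha) _ heN, hθ.mul _ hfN _ ha, hθf, hθa, hθe]
      simp
    have hyy : star (f * a * e) * (f * a * e) ∈ P := by
      rw [hP]
      refine ⟨mul_mem (star_mem hyN) hyN, ?_⟩
      rw [hθ.mul _ (star_mem hyN) _ hyN, hθ.star _ hyN, hθy, star_neg, neg_mul_neg]
    obtain ⟨b, hb, hyb, hprj, hthird⟩ := hPIS H P (f * a * e) hy hyy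
    have hbN := (hP b).1 hb
    apply hyb
    refine hmax (f * a * e * b) (mul_mem hyN hbN.1) ?_ ?_ ?_ ?_
    · rw [hθ.mul _ hyN _ hbN.1, hθy, hbN.2, neg_mul]
    · exact ⟨((hP _).1 hprj.1).1, hprj.2.1, hprj.2.2⟩
    · refine hthird (star v * v) ?_
      rw [mul_assoc, hev, mul_zero]
    · have : v * star v * (f * a * e * b) = v * star v * f * (a * e * b) := by
        simp only [mul_assoc]
      rw [this, hvf, zero_mul]
  have hpa : ∀ p ∈ P, ∀ a ∈ N, θ a = -a → p * a ∈ N ∧ θ (p * a) = -(p * a) := by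
    intro p hp a ha hθa
    have hpN := (hP p).1 hp
    refine ⟨mul_mem hpN.1 ha, ?_⟩
    rw [hθ.mul _ hpN.1 _ ha, hpN.2, hθa, mul_neg]
  have hef : e = 0 ∨ f = 0 := by
    by_contra hcon
    push Not at hcon
    obtain ⟨he0, hf0⟩ := hcon
    have hae : ∀ a ∈ N, θ a = -a → a * e = 0 := by
      intro a ha hθa
      have h1 : ∀ p ∈ P, f * p * (a * e) = 0 := by
        intro p hp
        obtain ⟨h2, h3⟩ := hpa p hp a ha hθa
        have := hcor _ h2 h3
        rw [← this]
        simp only [mul_assoc]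
      rcases hFCT H P hPf f hfP (a * e) h1 with h | h
      · exact absurd h hf0
      · exact h
    have hea : ∀ a ∈ N, θ a = -a → e * a = 0 := by
      intro a ha hθa
      have h1 := hae (star a) (star_mem ha) (by rw [hθ.star a ha, hθa, star_neg])
      have h2 := congrArg star h1
      rwa [star_mul, star_star, star_zero, hse] at h2
    have ha0 : ∀ a ∈ N, θ a = -a → a = 0 := by
      intro a ha hθa
      have h1 : ∀ p ∈ P, e * p * a = 0 := by
        intro p hp
        obtain ⟨h2, h3⟩ := hpa p hp a ha hθa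
        rw [mul_assoc]
        exact hea _ h2 h3
      rcases hFCT H P hPf e heP a h1 with h | h
      · exact absurd h he0
      · exact h
    obtain ⟨x, hx, hne⟩ := hθ.out 1 (uni_one N)
    apply hne
    have h1 := ha0 (x - θ x) (sub_mem hx (hθ.mem x hx)) (by
      rw [inv_sub hθ hx (hθ.mem x hx), hθ.inv x hx, neg_sub])
    rw [star_one, one_mul, mul_one]
    exact (sub_eq_zero.1 h1).symm
  have htr : tr ξ e = tr ξ f := by
    rw [he, hf, tr_sub hN.sum, tr_sub hN.sum, hN.comm v hv _ hsv]
  have hboth : e = 0 ∧ f = 0 := by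
    rcases hef with h | h
    · refine ⟨h, hN.faith f hfN ?_⟩
      rw [hsf, hff, ← htr, h, tr_zero]
    · refine ⟨hN.faith e heN ?_, h⟩
      rw [hse, hee, htr, h, tr_zero]
  exact ⟨v, ⟨hv, (sub_eq_zero.1 hboth.1).symm, (sub_eq_zero.1 hboth.2).symm⟩, hθv⟩

end Pool.Agent.H60.G2
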